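import Pool.Agent.H590.NL.Stm

/-!
# Task OR: the integrals for the standard basis (MP_85210c_gt, all dimensions)
-/

set_option autoImplicit false

open MeasureTheory Filter Topology Set

namespace Pool.Agent.H671.NL

open H590NL

theorem I0 (p b : ℝ) (hp : 0 < p) (hb : 0 < b) :
    ∫ u : ℝ, Real.exp (-(b * |u| ^ p)) = b ^ (-(1 / p)) * (2 * Real.Gamma (1 + 1 / p)) := by
  have h1 := integral_comp_abs (f := fun u : ℝ => Real.exp (-(b * u ^ p)))
  rw [h1]
  have h2 := integral_exp_neg_mul_rpow hp hb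
  have h3 : ∫ x in Ioi (0 : ℝ), Real.exp (-(b * x ^ p)) =
      ∫ x in Ioi (0 : ℝ), Real.exp (-b * x ^ p) := by
    congr 1
    funext x
    rw [neg_mul]
  rw [h3, h2, neg_div, add_comm (1 / p) 1]
  ring

theorem I1 (p b : ℝ) (hp : 1 < p) (hb : 0 < b) :
    ∫ u : ℝ, Real.exp (-(b * |u| ^ p)) * (p * b * |u| ^ (p - 2)) =
      b ^ (1 / p) * (2 * Real.Gamma (1 - 1 / p)) := by
  have hp0 : 0 < p := by linarith
  have h1 := integral_comp_abs
    (f := fun u : ℝ => Real.exp (-(b * u ^ p)) * (p * b * u ^ (p - 2)))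
  rw [h1]
  have h2 := integral_rpow_mul_exp_neg_mul_rpow (p := p) (q := p - 2) (b := b) hp0
    (by linarith) hb
  have h3 : ∫ x in Ioi (0 : ℝ), Real.exp (-(b * x ^ p)) * (p * b * x ^ (p - 2)) =
      p * b * ∫ x in Ioi (0 : ℝ), x ^ (p - 2) * Real.exp (-b * x ^ p) := by
    rw [← integral_const_mul]
    congr 1
    funext x
    rw [neg_mul]
    ring
  have h4 : (p - 2 + 1) / p = 1 - 1 / p := by
    field_simp
    ring
  have h5 : -(p - 2 + 1) / p = 1 / p - 1 := by
    field_simp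
    ring
  have h6 : b * b ^ (1 / p - 1) = b ^ (1 / p) := by
    rw [Real.rpow_sub hb, Real.rpow_one]
    field_simp
  rw [h3, h2, h4, h5, ← h6]
  field_simp

theorem ip_ee {n : ℕ} (i : Fin n) (x : V n) : ip (ee n i) x = x i := by
  unfold ip ee
  rw [Finset.sum_eq_single i]
  · simp
  · intro j _ hj
    simp [Pi.single_eq_of_ne hj]
  · intro h
    exact absurd (Finset.mem_univ i) h

theorem Ph_ee {n : ℕ} (p : ℝ) (b : Fin n → ℝ) (x : V n) :
    Ph p (ee n) b x = ∑ i, b i * |x i| ^ p := by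
  unfold Ph
  exact Finset.sum_congr rfl fun i _ => by rw [ip_ee]

theorem exp_ee {n : ℕ} (p : ℝ) (b : Fin n → ℝ) (x : V n) :
    Real.exp (-(Ph p (ee n) b x)) = ∏ i, Real.exp (-(b i * |x i| ^ p)) := by
  rw [Ph_ee, ← Finset.sum_neg_distrib, Real.exp_sum]

theorem det_perm {n : ℕ} (σ : Equiv.Perm (Fin n)) : (dm (ee n) σ).det ^ 2 = 1 := by
  have h : dm (ee n) σ = (1 : Matrix (Fin n) (Fin n) ℝ).submatrix σ id := by
    ext i j
    simp only [dm, ee, Matrix.of_apply, Matrix.submatrix_apply, id, Matrix.one_apply,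
      Pi.single_apply]
    simp only [eq_comm]
  rw [h, Matrix.det_permute, Matrix.det_one, mul_one]
  rcases Int.units_eq_one_or (Equiv.Perm.sign σ) with h1 | h1 <;> rw [h1] <;> norm_num

theorem det_zero {n : ℕ} (f : Fin n → Fin n) (hf : ¬ Function.Bijective f) :
    (dm (ee n) f).det = 0 := by
  have hi : ¬ Function.Injective f := fun h => hf (Finite.injective_iff_bijective.1 h)
  unfold Function.Injective at hi
  push Not at hi
  obtain ⟨i, j, hij, hne⟩ := hi
  apply Matrix.det_zero_of_row_eq hne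
  unfold dm
  funext l
  simp only [Matrix.of_apply]
  rw [hij]

theorem sum_perm {n : ℕ} (F : (Fin n → Fin n) → ℝ)
    (h : ∀ f, ¬ Function.Bijective f → F f = 0) :
    ∑ f, F f = ∑ σ : Equiv.Perm (Fin n), F σ := by
  classical
  have h1 : ∑ f, F f = ∑ f ∈ Finset.univ.filter (fun f : Fin n → Fin n => Function.Bijective f),
      F f := by
    symm
    apply Finset.sum_filter_of_ne
    intro f _ hf
    by_contra hcon
    exact hf (h f hcon)
  rw [h1]
  symm
  refine Finset.sum_bij (fun (σ : Equiv.Perm (Fin n)) _ => (σ : Fin n → Fin n)) ?_ ?_ ?_ ?_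
  · intro σ _
    rw [Finset.mem_filter]
    exact ⟨Finset.mem_univ _, σ.bijective⟩
  · intro σ _ τ _ hst
    exact DFunLike.coe_injective hst
  · intro f hf
    rw [Finset.mem_filter] at hf
    exact ⟨Equiv.ofBijective f hf.2, Finset.mem_univ _, rfl⟩
  · intro σ _
    rfl

theorem DD_ee {n : ℕ} (p : ℝ) (b : Fin n → ℝ) (x : V n) :
    DD p (ee n) b x = ∏ i, (p * b i * |x i| ^ (p - 2)) := by
  unfold DD
  rw [sum_perm (fun f => (dm (ee n) f).det ^ 2 *
    ∏ i, (p * b (f i) * |ip (ee n (f i)) x| ^ (p - 2))) (fun f hf => by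
      rw [det_zero f hf]
      ring)]
  have h1 : ∀ σ : Equiv.Perm (Fin n), (dm (ee n) σ).det ^ 2 *
      ∏ i, (p * b (σ i) * |ip (ee n (σ i)) x| ^ (p - 2)) = ∏ i, (p * b i * |x i| ^ (p - 2)) := by
    intro σ
    rw [det_perm, one_mul]
    have h2 : ∀ i, p * b (σ i) * |ip (ee n (σ i)) x| ^ (p - 2) =
        (fun j => p * b j * |x j| ^ (p - 2)) (σ i) := fun i => by
      simp only
      rw [ip_ee]
    rw [Finset.prod_congr rfl fun i _ => h2 i]
    exact Equiv.prod_comp σ (fun j => p * b j * |x j| ^ (p - 2))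
  rw [Finset.sum_congr rfl fun σ _ => h1 σ, Finset.sum_const, Finset.card_univ,
    Fintype.card_perm, Fintype.card_fin, nsmul_eq_mul, ← mul_assoc, one_div,
    inv_mul_cancel₀ (by positivity), one_mul]

theorem FF_ee {n : ℕ} (p : ℝ) (b : Fin n → ℝ) :
    FF p (ee n) b = ∏ i, ∫ u : ℝ, Real.exp (-(b i * |u| ^ p)) := by
  have h := integral_fintype_prod_volume_eq_prod
    (fun (i : Fin n) (u : ℝ) => Real.exp (-(b i * |u| ^ p)))
  rw [← h]
  unfold FF
  congr 1
  funext x
  exact exp_ee p b x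

theorem AA_ee {n : ℕ} (p : ℝ) (b : Fin n → ℝ) :
    AA p (ee n) b = ∏ i, ∫ u : ℝ, Real.exp (-(b i * |u| ^ p)) * (p * b i * |u| ^ (p - 2)) := by
  have h := integral_fintype_prod_volume_eq_prod
    (fun (i : Fin n) (u : ℝ) => Real.exp (-(b i * |u| ^ p)) * (p * b i * |u| ^ (p - 2)))
  rw [← h]
  unfold AA
  congr 1
  funext x
  rw [exp_ee, DD_ee, ← Finset.prod_mul_distrib]

theorem bu_self {n : ℕ} (k : Fin n) (y : ℝ) : bu k y k = 1 + y := by simp [bu]

theorem bu_ne {n : ℕ} {k i : Fin n} (y : ℝ) (h : i ≠ k) : bu k y i = 1 := by simp [bu, h]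

theorem bu_pos {n : ℕ} (k i : Fin n) {y : ℝ} (hy : -1 < y) : 0 < bu k y i := by
  by_cases h : i = k
  · subst h
    rw [bu_self]
    linarith
  · rw [bu_ne y h]
    exact one_pos

theorem prod_bu {n : ℕ} (k : Fin n) (y s : ℝ) : ∏ i, bu k y i ^ s = (1 + y) ^ s := by
  rw [Finset.prod_eq_single k]
  · rw [bu_self]
  · intro i _ hi
    rw [bu_ne y hi, Real.one_rpow]
  · intro h
    exact absurd (Finset.mem_univ k) h

theorem OR : S_OR := by
  intro n p hp1 hp2
  have hp0 : 0 < p := by linarith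
  have hF : FF p (ee n) one = (2 * Real.Gamma (1 + 1 / p)) ^ n := by
    rw [FF_ee]
    have h : ∀ i : Fin n, ∫ u : ℝ, Real.exp (-((one : Fin n → ℝ) i * |u| ^ p)) =
        2 * Real.Gamma (1 + 1 / p) := fun i => by
      change ∫ u : ℝ, Real.exp (-(1 * |u| ^ p)) = _
      rw [I0 p 1 hp0 one_pos, Real.one_rpow, one_mul]
    rw [Finset.prod_congr rfl fun i _ => h i, Finset.prod_const, Finset.card_univ,
      Fintype.card_fin]
  have hA : AA p (ee n) one = (2 * Real.Gamma (1 - 1 / p)) ^ n := by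
    rw [AA_ee]
    have h : ∀ i : Fin n, ∫ u : ℝ, Real.exp (-((one : Fin n → ℝ) i * |u| ^ p)) *
        (p * (one : Fin n → ℝ) i * |u| ^ (p - 2)) = 2 * Real.Gamma (1 - 1 / p) := fun i => by
      change ∫ u : ℝ, Real.exp (-(1 * |u| ^ p)) * (p * 1 * |u| ^ (p - 2)) = _
      rw [I1 p 1 hp1 one_pos, Real.one_rpow, one_mul]
    rw [Finset.prod_congr rfl fun i _ => h i, Finset.prod_const, Finset.card_univ,
      Fintype.card_fin]
  refine ⟨hF, hA, ?_⟩
  intro k y hy
  rw [hF, hA, FF_ee, AA_ee]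
  constructor
  · rw [Finset.prod_congr rfl fun i _ => I0 p (bu k y i) hp0 (bu_pos k i hy),
      Finset.prod_mul_distrib, prod_bu, Finset.prod_const, Finset.card_univ, Fintype.card_fin]
  · rw [Finset.prod_congr rfl fun i _ => I1 p (bu k y i) hp1 (bu_pos k i hy),
      Finset.prod_mul_distrib, prod_bu, Finset.prod_const, Finset.card_univ, Fintype.card_fin]

end Pool.Agent.H671.NL
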